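import Pool.Agent.Helper98.FA.Red

/-!
# Project FA: the Hopf subalgebra on which a central comodule matrix is trivial
-/

set_option linter.unusedSectionVars false
set_option autoImplicit false

open scoped TensorProduct
open WithConv
open Pool.Agent.Helper90.FC Pool.Agent.Helper90.UN Pool.Agent.Helper56.SS Pool.Agent.Helper49.FA

namespace Pool.Agent.Helper98.FA

universe u

section

variable {k : Type u} [Field k] {A B : Type u} [Ring A] [Ring B] [HopfAlgebra k A]
    [HopfAlgebra k B] {n : ℕ} (w : Fin n → Fin n → WithConv (B →ₗ[k] k))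

theorem TTw_mul (w_mul : ∀ i j b b', (w i j).ofConv (b * b') =
    ∑ l, (w i l).ofConv b * (w l j).ofConv b') (i j : Fin n) (b b' : B) :
    TT (w i j) (b * b') = ∑ l, TT (w i l) b * TT (w l j) b' := by
  have h : ∀ s t : B ⊗[k] B, TensorProduct.lid k B ((w i j).ofConv.rTensor B (s * t)) =
      ∑ l, TensorProduct.lid k B ((w i l).ofConv.rTensor B s) *
        TensorProduct.lid k B ((w l j).ofConv.rTensor B t) := by
    intro s t
    induction s with
    | zero => simp
    | add x y hx hy =>
      rw [add_mul, map_add, map_add, hx, hy, ← Finset.sum_add_distrib]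
      refine Finset.sum_congr rfl fun l _ => ?_
      rw [map_add, map_add, add_mul]
    | tmul x y =>
      induction t with
      | zero => simp
      | add x' y' hx hy =>
        rw [mul_add, map_add, map_add, hx, hy, ← Finset.sum_add_distrib]
        refine Finset.sum_congr rfl fun l _ => ?_
        rw [map_add, map_add, mul_add]
      | tmul x' y' =>
        rw [Algebra.TensorProduct.tmul_mul_tmul, LinearMap.rTensor_tmul, TensorProduct.lid_tmul,
          w_mul, Finset.sum_smul]
        refine Finset.sum_congr rfl fun l _ => ?_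
        rw [LinearMap.rTensor_tmul, LinearMap.rTensor_tmul, TensorProduct.lid_tmul,
          TensorProduct.lid_tmul, smul_mul_smul_comm]
  rw [TT_apply, Lf_apply, Bialgebra.comul_mul, h]
  rfl

theorem TTw_iota (ι : A →ₐc[k] B) (w_iota : ∀ i j a, (w i j).ofConv (ι a) =
    if i = j then Coalgebra.counit (R := k) a else 0) (i j : Fin n) (a : A) :
    TT (w i j) (ι a) = if i = j then ι a else 0 := by
  have h : ∀ t : A ⊗[k] A, TensorProduct.lid k B ((w i j).ofConv.rTensor B
      (TensorProduct.map (ι : A →ₗ[k] B) (ι : A →ₗ[k] B) t)) =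
      if i = j then ι (TensorProduct.lid k A ((Coalgebra.counit (R := k)).rTensor A t)) else 0 := by
    intro t
    induction t with
    | zero => simp
    | add x y hx hy =>
      rw [map_add, map_add, map_add, hx, hy]
      split_ifs
      · rw [map_add, map_add, map_add]
      · rw [add_zero]
    | tmul x y =>
      rw [TensorProduct.map_tmul, LinearMap.rTensor_tmul, TensorProduct.lid_tmul]
      change (w i j).ofConv (ι x) • ι y = _
      rw [w_iota]
      split_ifs
      · rw [LinearMap.rTensor_tmul, TensorProduct.lid_tmul, map_smul]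
      · rw [zero_smul]
  have h2 : Coalgebra.comul (R := k) (ι a) =
      TensorProduct.map (ι : A →ₗ[k] B) (ι : A →ₗ[k] B) (Coalgebra.comul a) :=
    (CoalgHomClass.map_comp_comul_apply ι a).symm
  rw [TT_apply, Lf_apply, h2, h, Coalgebra.rTensor_counit_comul, TensorProduct.lid_tmul, one_smul]

/-- the elements on which the matrix is the identity -/
noncomputable def SW (w_one : ∀ i j, (w i j).ofConv 1 = if i = j then 1 else 0)
    (w_mul : ∀ i j b b', (w i j).ofConv (b * b') =
      ∑ l, (w i l).ofConv b * (w l j).ofConv b') : Subalgebra k B where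
  carrier := {b | ∀ i j, TT (w i j) b = if i = j then b else 0}
  mul_mem' := by
    intro b b' hb hb' i j
    have hb1 : ∀ i j, TT (w i j) b = if i = j then b else 0 := hb
    have hb2 : ∀ i j, TT (w i j) b' = if i = j then b' else 0 := hb'
    rw [TTw_mul w w_mul]
    simp only [hb1, hb2]
    by_cases h : i = j
    · subst h
      rw [if_pos rfl, Finset.sum_eq_single i]
      · rw [if_pos rfl, if_pos rfl]
      · intro l _ hl
        rw [if_neg (Ne.symm hl), zero_mul]
      · intro hi
        exact absurd (Finset.mem_univ _) hi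
    · rw [if_neg h]
      refine Finset.sum_eq_zero fun l _ => ?_
      by_cases hl : i = l
      · rw [if_neg (fun h' => h (hl.trans h')), mul_zero]
      · rw [if_neg hl, zero_mul]
  add_mem' := by
    intro b b' hb hb' i j
    have hb1 : ∀ i j, TT (w i j) b = if i = j then b else 0 := hb
    have hb2 : ∀ i j, TT (w i j) b' = if i = j then b' else 0 := hb'
    rw [map_add, hb1, hb2]
    split_ifs
    · rfl
    · rw [add_zero]
  algebraMap_mem' := by
    intro r i j
    rw [Algebra.algebraMap_eq_smul_one, map_smul, TT_at_one, w_one]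
    split_ifs
    · rw [one_smul]
    · rw [zero_smul, smul_zero]

theorem mem_SW (w_one : ∀ i j, (w i j).ofConv 1 = if i = j then 1 else 0)
    (w_mul : ∀ i j b b', (w i j).ofConv (b * b') =
      ∑ l, (w i l).ofConv b * (w l j).ofConv b') (b : B) :
    b ∈ SW w w_one w_mul ↔ ∀ i j, TT (w i j) b = if i = j then b else 0 := Iff.rfl

theorem SW_comul [Module.Finite k B] (w_one : ∀ i j, (w i j).ofConv 1 = if i = j then 1 else 0)
    (w_mul : ∀ i j b b', (w i j).ofConv (b * b') =
      ∑ l, (w i l).ofConv b * (w l j).ofConv b') (w_cen : ∀ i j g, w i j * g = g * w i j) (b : B)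
    (hb : b ∈ SW w w_one w_mul) : Coalgebra.comul (R := k) b ∈ LinearMap.range
      (TensorProduct.map (SW w w_one w_mul).val.toLinearMap
        (SW w w_one w_mul).val.toLinearMap) := by
  rw [mem_SW] at hb
  refine mem_range_of_slices (Subalgebra.toSubmodule (SW w w_one w_mul)) _ (fun f => ?_)
    (fun g => ?_)
  · change Lf f b ∈ SW w w_one w_mul
    rw [mem_SW]
    intro i j
    have h1 : TT (w i j) (TT (toConv f) b) = TT (toConv f) (TT (w i j) b) := by
      rw [← Module.End.mul_apply, ← Module.End.mul_apply, ← TT_mul, ← TT_mul, w_cen]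
    change TT (w i j) (TT (toConv f) b) = if i = j then TT (toConv f) b else 0
    rw [h1, hb]
    split_ifs
    · rfl
    · rw [map_zero]
  · change Rg g b ∈ SW w w_one w_mul
    rw [mem_SW]
    intro i j
    rw [TT_apply, Lf_Rg, ← TT_apply, hb]
    split_ifs
    · rfl
    · rw [map_zero]

end

section

variable {k : Type u} [Field k]

theorem exists_red_mat {A B C D : Type u} [Ring A] [Ring B] [Ring C] [Ring D] [HopfAlgebra k A]
    [HopfAlgebra k B] [HopfAlgebra k C] [HopfAlgebra k D] [Module.Finite k B] [IsSemisimpleRing D]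
    (ι : A →ₐc[k] B) (π : B →ₐc[k] C) (q : B →ₐc[k] D) (hex : HopfExact k ι π)
    (hq : Function.Surjective q) {n : ℕ} (w : Fin n → Fin n → WithConv (B →ₗ[k] k))
    (w_one : ∀ i j, (w i j).ofConv 1 = if i = j then 1 else 0)
    (w_mul : ∀ i j b b', (w i j).ofConv (b * b') = ∑ l, (w i l).ofConv b * (w l j).ofConv b')
    (w_cen : ∀ i j g, w i j * g = g * w i j)
    (w_iota : ∀ i j a, (w i j).ofConv (ι a) = if i = j then Coalgebra.counit (R := k) a else 0)
    (w_ker : ∀ i j b, q b = 0 → (w i j).ofConv b = 0) :
    ∃ (K : Type u) (_ : Ring K) (_ : HopfAlgebra k K) (C1 : Type u) (_ : Ring C1)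
      (_ : HopfAlgebra k C1) (j : K →ₐc[k] B) (ι1 : A →ₐc[k] K) (π1 : K →ₐc[k] C1)
      (g : C1 →ₐc[k] C), Function.Injective j ∧ (∀ a, j (ι1 a) = ι a) ∧ HopfExact k ι1 π1 ∧
        (∀ x, g (π1 x) = π (j x)) ∧ Function.Injective g ∧
        (∀ i l x, (w i l).ofConv (j x) = if i = l then Coalgebra.counit (R := k) x else 0) ∧
        (FGE k K → FGE k B) := by
  have hfA : Module.Finite k A := Module.Finite.of_injective (ι : A →ₗ[k] B) hex.inj
  have hfD : Module.Finite k D := Module.Finite.of_surjective (q : B →ₗ[k] D) hq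
  obtain ⟨K, iK, hK, j, hj, hjr⟩ := exists_subHopf_ring (SW w w_one w_mul)
    (fun b hb => SW_comul w w_one w_mul w_cen b hb)
    (fun b hb => antipode_mem _ (fun b hb => SW_comul w w_one w_mul w_cen b hb) hb)
  have hfK : Module.Finite k K := Module.Finite.of_injective (j : K →ₗ[k] B) hj
  have hjS : ∀ x : K, ∀ i l, TT (w i l) (j x) = if i = l then j x else 0 := by
    intro x
    have h1 : j x ∈ (SW w w_one w_mul : Set B) := by
      rw [← hjr]
      exact ⟨x, rfl⟩
    exact (mem_SW w w_one w_mul _).1 h1
  obtain ⟨ι1, hι1⟩ := exists_lift j hj ι fun a => by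
    rw [hjr]
    exact (mem_SW w w_one w_mul _).2 fun i l => TTw_iota w ι w_iota i l a
  obtain ⟨C1, iC, hC, π1, g, hπ1, hg, hgπ⟩ := exists_img (π.comp j)
  have hgπ' : ∀ x, g (π1 x) = π (j x) := hgπ
  obtain ⟨r, hr1, hr2⟩ := exists_retr' j hj
  refine ⟨K, iK, hK, C1, iC, hC, j, ι1, π1, g, hj, hι1, ⟨?_, hπ1, ?_⟩, hgπ', hg, ?_, ?_⟩
  · intro a a' h
    apply hex.inj
    rw [← hι1, ← hι1, h]
  · intro x
    constructor
    · intro hx
      have h1 : π (j x) = 0 := by rw [← hgπ', hx, map_zero]
      have h2 := (hex.ker (j x)).1 h1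
      have h3 : ∀ z ∈ Ideal.span (ι '' {a : A | Coalgebra.counit (R := k) a = 0}), ∀ c : B,
          r (c * z) ∈ Ideal.span (ι1 '' {a : A | Coalgebra.counit (R := k) a = 0}) := by
        intro z hz
        induction hz using Submodule.span_induction with
        | mem z hz =>
          obtain ⟨a, ha, rfl⟩ := hz
          intro c
          rw [← hι1, hr2]
          exact Ideal.mul_mem_left _ _ (Ideal.subset_span ⟨a, ha, rfl⟩)
        | zero => intro c; rw [mul_zero, map_zero]; exact Ideal.zero_mem _
        | add x y _ _ hx hy => intro c; rw [mul_add, map_add]; exact Ideal.add_mem _ (hx c) (hy c)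
        | smul d x _ hx => intro c; rw [smul_eq_mul, ← mul_assoc]; exact hx _
      have h4 := h3 _ h2 1
      rwa [one_mul, hr1] at h4
    · intro hx
      have hle : Ideal.span (ι1 '' {a : A | Coalgebra.counit (R := k) a = 0}) ≤
          RingHom.ker (AlgHomClass.toAlgHom π1 : K →ₐ[k] C1) := by
        rw [Ideal.span_le]
        rintro _ ⟨a, ha, rfl⟩
        change π1 (ι1 a) = 0
        apply hg
        rw [hgπ', hι1, map_zero]
        exact (hex.ker (ι a)).2 (Ideal.subset_span ⟨a, ha, rfl⟩)
      exact hle hx
  · intro i l x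
    rw [← counit_TT, hjS]
    split_ifs
    · rw [Pool.Agent.Helper90.UN.map_counit]
    · rw [map_zero]
  · intro hK1
    obtain ⟨s, hs0, hs⟩ := exists_sec q hq
    obtain ⟨t, ht⟩ := exists_avg q hq j fun b hb => by
      refine ker_le_of q s hs0 j (fun y => ?_) b hb
      rw [hjr]
      refine (mem_SW w w_one w_mul _).2 fun i l => ?_
      have h1 : ∀ b : B, (w i l).ofConv b = ((w i l).ofConv ∘ₗ s) (q b) := by
        intro b
        rw [LinearMap.comp_apply, ← sub_eq_zero, ← map_sub]
        exact w_ker i l _ (by rw [map_sub, hs0, sub_self])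
      have h2 : ∀ z : B ⊗[k] B, TensorProduct.lid k B ((w i l).ofConv.rTensor B z) =
          TensorProduct.lid k B (((w i l).ofConv ∘ₗ s).rTensor B
            ((q : B →ₗ[k] D).rTensor B z)) := by
        intro z
        induction z with
        | zero => simp only [map_zero]
        | add x y hx hy => simp only [map_add, hx, hy]
        | tmul x y =>
          rw [LinearMap.rTensor_tmul, LinearMap.rTensor_tmul, LinearMap.rTensor_tmul,
            TensorProduct.lid_tmul, TensorProduct.lid_tmul, h1]
          rfl
      rw [TT_apply, Lf_apply, h2, rT_kap q s hs, LinearMap.rTensor_tmul, TensorProduct.lid_tmul]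
      have h3 : ((w i l).ofConv ∘ₗ s) 1 = if i = l then 1 else 0 := by
        rw [← map_one q, ← h1, w_one]
      rw [h3]
      split_ifs
      · rw [one_smul]
      · rw [zero_smul]
    exact fge_avg j hj ht hK1

end

end Pool.Agent.Helper98.FA
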