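import Pool.Agent.Helper49.FA.Mat
import Pool.Agent.Helper49.FA.Tow
import Pool.Agent.Helper56.SS.Act
import Pool.Agent.Helper56.SS.Ker

/-!
# Project FA: the Hopf subalgebra on which the Frobenius twist of `U` is trivial
-/

set_option linter.unusedSectionVars false
set_option autoImplicit false

open scoped TensorProduct
open WithConv
open Pool.Agent.Helper90.FC Pool.Agent.Helper90.UN Pool.Agent.Helper56.SS Pool.Agent.Helper49.FA

namespace Pool.Agent.Helper98.FA

universe u

section

variable {k : Type u} [Field k] {A B : Type u} [Ring A] [Ring B] [HopfAlgebra k A]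
    [HopfAlgebra k B]

theorem TT_at_one (f : WithConv (B →ₗ[k] k)) : TT f 1 = f.ofConv 1 • (1 : B) := by
  rw [TT_apply, Lf_apply, Bialgebra.comul_one, Algebra.TensorProduct.one_def,
    LinearMap.rTensor_tmul, TensorProduct.lid_tmul]

theorem pow_at_one (f : WithConv (B →ₗ[k] k)) (r : ℕ) : (f ^ r).ofConv 1 = (f.ofConv 1) ^ r := by
  induction r with
  | zero =>
    rw [pow_zero, pow_zero]
    change algebraMap k k (Coalgebra.counit (R := k) (1 : B)) = 1
    rw [Bialgebra.counit_one]
    rfl
  | succ r ih =>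
    rw [pow_succ, pow_succ, ← ih]
    change LinearMap.mul' k k (TensorProduct.map _ _ (Coalgebra.comul (R := k) (1 : B))) = _
    rw [Bialgebra.comul_one, Algebra.TensorProduct.one_def, TensorProduct.map_tmul,
      LinearMap.mul'_apply]

theorem counit_TT (f : WithConv (B →ₗ[k] k)) (b : B) :
    Coalgebra.counit (R := k) (TT f b) = f.ofConv b := by
  have h : ∀ t : B ⊗[k] B, Coalgebra.counit (R := k) (TensorProduct.lid k B (f.ofConv.rTensor B t)) =
      f.ofConv (TensorProduct.rid k B ((Coalgebra.counit (R := k)).lTensor B t)) := by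
    intro t
    induction t with
    | zero => simp
    | add x y hx hy => simp only [map_add, hx, hy]
    | tmul x y => simp [mul_comm]
  rw [TT_apply, Lf_apply, h, Coalgebra.lTensor_counit_comul, TensorProduct.rid_tmul, one_smul]

variable {ι : A →ₐc[k] B} {U : Submodule k A} {n : ℕ} (M : MatU ι U n)

theorem pow_comm {f : WithConv (B →ₗ[k] k)} (h : ∀ g, f * g = g * f) (r : ℕ)
    (g : WithConv (B →ₗ[k] k)) : f ^ r * g = g * f ^ r := by
  have h1 : Commute f g := h g
  exact h1.pow_left r

theorem TT_pow_iota (hcomm : ∀ a a' : A, a * a' = a' * a) (i j : Fin n) (r : ℕ) (hr : r ≠ 0)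
    (a : A) : TT (M.m i j ^ r) (ι a) = if i = j then ι a else 0 := by
  obtain ⟨r, rfl⟩ := Nat.exists_eq_succ_of_ne_zero hr
  clear hr
  rw [TT_pow]
  induction r with
  | zero => rw [Nat.succ_eq_add_one, zero_add, pow_one, M.TT_iota hcomm]
  | succ r ih =>
    rw [Nat.succ_eq_add_one, pow_succ', Module.End.mul_apply, ih]
    split_ifs with h
    · rw [M.TT_iota hcomm, if_pos h]
    · rw [map_zero]

/-- the elements on which the twisted matrix is the identity -/
noncomputable def SS (p : ℕ) [Fact p.Prime] [CharP k p]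
    (hprim : ∀ u ∈ U, Coalgebra.comul (R := k) u = u ⊗ₜ[k] 1 + 1 ⊗ₜ[k] u)
    (hstab : ∀ u ∈ U, ∀ b : B, ∃ v ∈ U, adj k b (ι u) = ι v) : Subalgebra k B where
  carrier := {b | ∀ i j, TT (M.m i j ^ p) b = if i = j then b else 0}
  mul_mem' := by
    intro b b' hb hb' i j
    have hb1 : ∀ i j, TT (M.m i j ^ p) b = if i = j then b else 0 := hb
    have hb2 : ∀ i j, TT (M.m i j ^ p) b' = if i = j then b' else 0 := hb'
    rw [M.TT_m_pow_mul hprim hstab p]
    simp only [hb1, hb2]
    by_cases h : i = j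
    · subst h
      rw [if_pos rfl, Finset.sum_eq_single i]
      · rw [if_pos rfl, if_pos rfl]
      · intro l _ hl
        rw [if_neg (Ne.symm hl), zero_mul]
      · intro hi
        exact absurd (Finset.mem_univ _) hi
    · rw [if_neg h]
      refine Finset.sum_eq_zero fun l _ => ?_
      by_cases hl : i = l
      · rw [if_neg (fun h' => h (hl.trans h')), mul_zero]
      · rw [if_neg hl, zero_mul]
  add_mem' := by
    intro b b' hb hb' i j
    have hb1 : ∀ i j, TT (M.m i j ^ p) b = if i = j then b else 0 := hb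
    have hb2 : ∀ i j, TT (M.m i j ^ p) b' = if i = j then b' else 0 := hb'
    rw [map_add, hb1, hb2]
    split_ifs
    · rfl
    · rw [add_zero]
  algebraMap_mem' := by
    intro r i j
    rw [Algebra.algebraMap_eq_smul_one, map_smul, TT_at_one, pow_at_one, M.m_one]
    split_ifs
    · rw [one_pow, one_smul]
    · rw [zero_pow (Fact.out : p.Prime).ne_zero, zero_smul, smul_zero]

theorem mem_SS (p : ℕ) [Fact p.Prime] [CharP k p]
    (hprim : ∀ u ∈ U, Coalgebra.comul (R := k) u = u ⊗ₜ[k] 1 + 1 ⊗ₜ[k] u)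
    (hstab : ∀ u ∈ U, ∀ b : B, ∃ v ∈ U, adj k b (ι u) = ι v) (b : B) :
    b ∈ SS M p hprim hstab ↔ ∀ i j, TT (M.m i j ^ p) b = if i = j then b else 0 := Iff.rfl

theorem SS_comul [Module.Finite k B] (p : ℕ) [Fact p.Prime] [CharP k p]
    (hprim : ∀ u ∈ U, Coalgebra.comul (R := k) u = u ⊗ₜ[k] 1 + 1 ⊗ₜ[k] u)
    (hstab : ∀ u ∈ U, ∀ b : B, ∃ v ∈ U, adj k b (ι u) = ι v) (b : B)
    (hb : b ∈ SS M p hprim hstab) : Coalgebra.comul (R := k) b ∈ LinearMap.range
      (TensorProduct.map (SS M p hprim hstab).val.toLinearMap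
        (SS M p hprim hstab).val.toLinearMap) := by
  rw [mem_SS] at hb
  refine mem_range_of_slices (Subalgebra.toSubmodule (SS M p hprim hstab)) _ (fun f => ?_)
    (fun g => ?_)
  · change Lf f b ∈ SS M p hprim hstab
    rw [mem_SS]
    intro i j
    have h1 : TT (M.m i j ^ p) (TT (toConv f) b) = TT (toConv f) (TT (M.m i j ^ p) b) := by
      rw [← Module.End.mul_apply, ← Module.End.mul_apply, ← TT_mul, ← TT_mul,
        pow_comm (M.m_comm hprim hstab i j)]
    change TT (M.m i j ^ p) (TT (toConv f) b) = if i = j then TT (toConv f) b else 0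
    rw [h1, hb]
    split_ifs
    · rfl
    · rw [map_zero]
  · change Rg g b ∈ SS M p hprim hstab
    rw [mem_SS]
    intro i j
    rw [TT_apply, Lf_Rg, ← TT_apply, hb]
    split_ifs
    · rfl
    · rw [map_zero]

end

section

variable {k : Type u} [Field k]

theorem exists_red (p : ℕ) [Fact p.Prime] [CharP k p] {A B C D : Type u} [Ring A] [Ring B]
    [Ring C] [Ring D] [HopfAlgebra k A] [HopfAlgebra k B] [HopfAlgebra k C] [HopfAlgebra k D]
    [Module.Finite k B] [IsSemisimpleRing D] (ι : A →ₐc[k] B) (π : B →ₐc[k] C) (q : B →ₐc[k] D)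
    (hex : HopfExact k ι π) (hcomm : ∀ a a' : A, a * a' = a' * a) (hq : Function.Surjective q)
    (U : Submodule k A)
    (hprim : ∀ u ∈ U, Coalgebra.comul (R := k) u = u ⊗ₜ[k] 1 + 1 ⊗ₜ[k] u)
    (hstab : ∀ u ∈ U, ∀ b : B, ∃ v ∈ U, adj k b (ι u) = ι v)
    (htw : ∀ u ∈ U, ∀ (φ : B →ₗ[k] k) (b : B), q b = 0 →
      (toConv (φ ∘ₗ adR k (ι u)) ^ p).ofConv b = 0) :
    ∃ (K : Type u) (_ : Ring K) (_ : HopfAlgebra k K) (C1 : Type u) (_ : Ring C1)
      (_ : HopfAlgebra k C1) (j : K →ₐc[k] B) (ι1 : A →ₐc[k] K) (π1 : K →ₐc[k] C1)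
      (g : C1 →ₐc[k] C), Function.Injective j ∧ (∀ a, j (ι1 a) = ι a) ∧ HopfExact k ι1 π1 ∧
        (∀ x, g (π1 x) = π (j x)) ∧ Function.Injective g ∧
        (∀ u ∈ U, ∀ b : K, ∃ v ∈ U, adj k b (ι1 u) = ι1 v) ∧
        (∀ u ∈ U, ∀ φ : K →ₗ[k] k, (toConv (φ ∘ₗ adR k (ι1 u)) : WithConv (K →ₗ[k] k)) ^ p =
          (φ (ι1 u)) ^ p • 1) ∧ (FGE k K → FGE k B) := by
  have hfA : Module.Finite k A := Module.Finite.of_injective (ι : A →ₗ[k] B) hex.inj
  have hfD : Module.Finite k D := Module.Finite.of_surjective (q : B →ₗ[k] D) hq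
  obtain ⟨n, ⟨M⟩⟩ := exists_matU ι hex.inj U
  have hp0 : p ≠ 0 := (Fact.out : p.Prime).ne_zero
  obtain ⟨K, iK, hK, j, hj, hjr⟩ := exists_subHopf_ring (SS M p hprim hstab)
    (fun b hb => SS_comul M p hprim hstab b hb)
    (fun b hb => antipode_mem _ (fun b hb => SS_comul M p hprim hstab b hb) hb)
  have hfK : Module.Finite k K := Module.Finite.of_injective (j : K →ₗ[k] B) hj
  have hjS : ∀ x : K, ∀ i l, TT (M.m i l ^ p) (j x) = if i = l then j x else 0 := by
    intro x
    have h1 : j x ∈ (SS M p hprim hstab : Set B) := by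
      rw [← hjr]
      exact ⟨x, rfl⟩
    exact (mem_SS M p hprim hstab _).1 h1
  obtain ⟨ι1, hι1⟩ := exists_lift j hj ι fun a => by
    rw [hjr]
    exact (mem_SS M p hprim hstab _).2 fun i l => TT_pow_iota M hcomm i l p hp0 a
  obtain ⟨C1, iC, hC, π1, g, hπ1, hg, hgπ⟩ := exists_img (π.comp j)
  have hgπ' : ∀ x, g (π1 x) = π (j x) := hgπ
  obtain ⟨r, hr1, hr2⟩ := exists_retr' j hj
  refine ⟨K, iK, hK, C1, iC, hC, j, ι1, π1, g, hj, hι1, ⟨?_, hπ1, ?_⟩, hgπ', hg, ?_, ?_, ?_⟩
  · intro a a' h
    apply hex.inj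
    rw [← hι1, ← hι1, h]
  · intro x
    constructor
    · intro hx
      have h1 : π (j x) = 0 := by rw [← hgπ', hx, map_zero]
      have h2 := (hex.ker (j x)).1 h1
      have h3 : ∀ z ∈ Ideal.span (ι '' {a : A | Coalgebra.counit (R := k) a = 0}), ∀ c : B,
          r (c * z) ∈ Ideal.span (ι1 '' {a : A | Coalgebra.counit (R := k) a = 0}) := by
        intro z hz
        induction hz using Submodule.span_induction with
        | mem z hz =>
          obtain ⟨a, ha, rfl⟩ := hz
          intro c
          rw [← hι1, hr2]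
          exact Ideal.mul_mem_left _ _ (Ideal.subset_span ⟨a, ha, rfl⟩)
        | zero => intro c; rw [mul_zero, map_zero]; exact Ideal.zero_mem _
        | add x y _ _ hx hy => intro c; rw [mul_add, map_add]; exact Ideal.add_mem _ (hx c) (hy c)
        | smul d x _ hx => intro c; rw [smul_eq_mul, ← mul_assoc]; exact hx _
      have h4 := h3 _ h2 1
      rwa [one_mul, hr1] at h4
    · intro hx
      have hle : Ideal.span (ι1 '' {a : A | Coalgebra.counit (R := k) a = 0}) ≤
          RingHom.ker (AlgHomClass.toAlgHom π1 : K →ₐ[k] C1) := by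
        rw [Ideal.span_le]
        rintro _ ⟨a, ha, rfl⟩
        change π1 (ι1 a) = 0
        apply hg
        rw [hgπ', hι1, map_zero]
        exact (hex.ker (ι a)).2 (Ideal.subset_span ⟨a, ha, rfl⟩)
      exact hle hx
  · intro u hu b
    obtain ⟨v, hv, h⟩ := hstab u hu (j b)
    refine ⟨v, hv, hj ?_⟩
    rw [Pool.Agent.Helper90.UN.map_adj, hι1, h, hι1]
  · intro u hu φ
    let ψ : B →ₗ[k] k := φ ∘ₗ r
    have hψ : φ ∘ₗ adR k (ι1 u) = (toConv (ψ ∘ₗ adR k (ι u))).ofConv ∘ₗ (j : K →ₗ[k] B) := by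
      refine LinearMap.ext fun x => ?_
      change φ (adj k x (ι1 u)) = φ (r (adj k (j x) (ι u)))
      rw [← hι1, ← Pool.Agent.Helper90.UN.map_adj, hr1]
    have hadd : ∀ (b : B) (s : Finset (Fin n)) (c : Fin n → k) (y : Fin n → B),
        adj k b (∑ l ∈ s, c l • y l) = ∑ l ∈ s, c l • adj k b (y l) := by
      intro b s c y
      classical
      induction s using Finset.induction_on with
      | empty => rw [Finset.sum_empty, Finset.sum_empty, adj_tensor_zero]
      | insert l s hl ih =>
        rw [Finset.sum_insert hl, Finset.sum_insert hl, adj_tensor_add, adj_tensor_smul, ih]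
    -- coordinates
    have hu1 : ι u = ∑ l, M.phi l (ι u) • ι (M.x l) := by
      have h := congrArg ι (M.coord u hu)
      rw [map_sum] at h
      refine h.trans (Finset.sum_congr rfl fun l _ => ?_)
      rw [map_smul]
    let c : Fin n × Fin n → k := fun t => M.phi t.2 (ι u) * ψ (ι (M.x t.1))
    have hc : toConv (ψ ∘ₗ adR k (ι u)) = ∑ t : Fin n × Fin n, c t • M.m t.1 t.2 := by
      refine WithConv.ext (LinearMap.ext fun b => ?_)
      have e1 : (∑ t : Fin n × Fin n, c t • M.m t.1 t.2 : WithConv (B →ₗ[k] k)).ofConv b =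
          ∑ t : Fin n × Fin n, c t * (M.m t.1 t.2).ofConv b := by
        let ev : WithConv (B →ₗ[k] k) →ₗ[k] k :=
          { toFun := fun f => f.ofConv b
            map_add' := fun _ _ => rfl
            map_smul' := fun _ _ => rfl }
        change ev _ = _
        rw [map_sum]
        refine Finset.sum_congr rfl fun t _ => ?_
        rw [map_smul, smul_eq_mul]
        rfl
      rw [e1, Fintype.sum_prod_type_right]
      change ψ (adj k b (ι u)) = _
      conv_lhs => rw [hu1, hadd, map_sum]
      refine Finset.sum_congr rfl fun l _ => ?_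
      rw [M.adj_x hstab, map_smul, map_sum, smul_eq_mul, Finset.mul_sum]
      refine Finset.sum_congr rfl fun i _ => ?_
      rw [map_smul, smul_eq_mul]
      change _ = M.phi l (ι u) * ψ (ι (M.x i)) * _
      ring
    have hB : Nontrivial B := ⟨⟨0, 1, fun h => by
      have h2 : Coalgebra.counit (R := k) (0 : B) = Coalgebra.counit (R := k) (1 : B) := by rw [h]
      rw [map_zero, Bialgebra.counit_one] at h2
      exact zero_ne_one h2⟩⟩
    have hW1 : (1 : WithConv (B →ₗ[k] k)).ofConv 1 = 1 := by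
      change algebraMap k k (Coalgebra.counit (R := k) (1 : B)) = 1
      rw [Bialgebra.counit_one]
      rfl
    have hW : Nontrivial (WithConv (B →ₗ[k] k)) := ⟨⟨0, 1, fun h => by
      rw [← h] at hW1
      exact zero_ne_one hW1⟩⟩
    have hCW : CharP (WithConv (B →ₗ[k] k)) p :=
      charP_of_injective_algebraMap (algebraMap k (WithConv (B →ₗ[k] k))).injective p
    have hcp : toConv (ψ ∘ₗ adR k (ι u)) ^ p =
        ∑ t : Fin n × Fin n, c t ^ p • M.m t.1 t.2 ^ p := by
      rw [hc, sum_pow_char_comm p]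
      · refine Finset.sum_congr rfl fun t _ => ?_
        rw [smul_pow]
      · intro s t
        have h1 : Commute (M.m s.1 s.2) (M.m t.1 t.2) := M.m_comm hprim hstab _ _ _
        exact (h1.smul_left _).smul_right _
    refine WithConv.ext (LinearMap.ext fun x => ?_)
    rw [hψ, conv_pow_comp j, hcp]
    have e1 : (∑ t : Fin n × Fin n, c t ^ p • M.m t.1 t.2 ^ p : WithConv (B →ₗ[k] k)).ofConv
        (j x) = ∑ t : Fin n × Fin n, c t ^ p * (M.m t.1 t.2 ^ p).ofConv (j x) := by
      let ev : WithConv (B →ₗ[k] k) →ₗ[k] k :=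
        { toFun := fun f => f.ofConv (j x)
          map_add' := fun _ _ => rfl
          map_smul' := fun _ _ => rfl }
      change ev _ = _
      rw [map_sum]
      refine Finset.sum_congr rfl fun t _ => ?_
      rw [map_smul, smul_eq_mul]
      rfl
    have e2 : ∀ i l, (M.m i l ^ p).ofConv (j x) =
        if i = l then Coalgebra.counit (R := k) x else 0 := by
      intro i l
      rw [← counit_TT, hjS]
      split_ifs
      · rw [Pool.Agent.Helper90.UN.map_counit]
      · rw [map_zero]
    rw [e1, Fintype.sum_prod_type]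
    have e3 : ∀ i, ∑ l, c (i, l) ^ p * (M.m (i, l).1 (i, l).2 ^ p).ofConv (j x) =
        c (i, i) ^ p * Coalgebra.counit (R := k) x := by
      intro i
      rw [Finset.sum_eq_single i]
      · rw [e2, if_pos rfl]
      · intro l _ hl
        rw [e2, if_neg (Ne.symm hl), mul_zero]
      · intro hi
        exact absurd (Finset.mem_univ _) hi
    rw [Finset.sum_congr rfl fun i _ => e3 i, ← Finset.sum_mul, ← sum_pow_char p]
    have e4 : ∑ i, c (i, i) = φ (ι1 u) := by
      have h1 : ψ (ι u) = φ (ι1 u) := by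
        change φ (r (ι u)) = _
        rw [← hι1, hr1]
      rw [← h1]
      conv_rhs => rw [hu1, map_sum]
      refine Finset.sum_congr rfl fun l _ => ?_
      rw [map_smul, smul_eq_mul]
    rw [e4]
    change _ = (φ (ι1 u)) ^ p • (algebraMap k k (Coalgebra.counit (R := k) x))
    rw [smul_eq_mul]
    rfl
  · intro hK1
    obtain ⟨s, hs0, hs⟩ := exists_sec q hq
    obtain ⟨t, ht⟩ := exists_avg q hq j fun b hb => by
      refine ker_le_of q s hs0 j (fun y => ?_) b hb
      rw [hjr]
      refine (mem_SS M p hprim hstab _).2 fun i l => ?_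
      have h1 : ∀ b : B, (M.m i l ^ p).ofConv b = ((M.m i l ^ p).ofConv ∘ₗ s) (q b) := by
        intro b
        rw [LinearMap.comp_apply, ← sub_eq_zero, ← map_sub]
        exact htw (M.x l) (M.mem l) (M.phi i) _ (by rw [map_sub, hs0, sub_self])
      have h2 : ∀ w : B ⊗[k] B, TensorProduct.lid k B ((M.m i l ^ p).ofConv.rTensor B w) =
          TensorProduct.lid k B (((M.m i l ^ p).ofConv ∘ₗ s).rTensor B
            ((q : B →ₗ[k] D).rTensor B w)) := by
        intro w
        induction w with
        | zero => simp only [map_zero]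
        | add x y hx hy => simp only [map_add, hx, hy]
        | tmul x y =>
          rw [LinearMap.rTensor_tmul, LinearMap.rTensor_tmul, LinearMap.rTensor_tmul,
            TensorProduct.lid_tmul, TensorProduct.lid_tmul, h1]
          rfl
      rw [TT_apply, Lf_apply, h2, rT_kap q s hs, LinearMap.rTensor_tmul, TensorProduct.lid_tmul]
      have h3 : ((M.m i l ^ p).ofConv ∘ₗ s) 1 = if i = l then 1 else 0 := by
        rw [← map_one q, ← h1, pow_at_one, M.m_one]
        split_ifs
        · rw [one_pow]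
        · rw [zero_pow hp0]
      rw [h3]
      split_ifs
      · rw [one_smul]
      · rw [zero_smul]
    exact fge_avg j hj ht hK1

end

end Pool.Agent.Helper98.FA
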